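import Pool.Agent.Lib.MP_de2f37_co.Reg2

/-!
# Steiner systems `S(2, k, k(2k - 1))` with a group of even order acting regularly on (almost) all points

The only definition used in the statement is `Steiner` (`Pool.Agent.Lib.MP_de2f37_co.Reg`): `Steiner k blocks`
says that all members of the finite set `blocks` of finite subsets of `V` have `k` elements and that any two
different points are in exactly one of them.
-/

namespace Pool.Agent.Results.MP_de2f37_co.EvenRegularGroups

open Pool.Agent.Lib.MPde2f37

/-- Let `k ≥ 2` and let `blocks` be the blocks of a Steiner system `S(2, k, k(2k - 1))` on `V`.  Let the group `G`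
act on it by automorphisms and let `G` have a subgroup of index `2`.  Suppose that for some point `o` the map
`g ↦ g o` is injective and at most one point is not of the form `g o`; if every point is of this form, suppose also
that every subgroup of `G` of prime order is normal.  Then `2k` is a sum of two squares. -/
theorem result (k : ℕ) (hk : 2 ≤ k) (V : Type) [Fintype V] [DecidableEq V]
    (hV : Fintype.card V = k * (2 * k - 1)) (blocks : Finset (Finset V)) (hD : Steiner k blocks)
    (G : Type) [Group G] [MulAction G V]
    (haut : ∀ g : G, ∀ B ∈ blocks, B.image (fun x => g • x) ∈ blocks)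
    (hindex : ∃ N : Subgroup G, N.index = 2)
    (o : V) (hfree : Function.Injective fun g : G => g • o)
    (hmiss : {x : V | ∀ g : G, g • o ≠ x}.Subsingleton)
    (hnormal : (∀ x : V, ∃ g : G, g • o = x) →
      ∀ s : G, (orderOf s).Prime → (Subgroup.zpowers s).Normal) :
    ∃ a b : ℕ, 2 * k = a ^ 2 + b ^ 2 := by
  obtain ⟨N, hN⟩ := hindex
  exact main2 hk hV hD haut o hfree hmiss
    (fun hall s hs h => (hnormal hall s hs).conj_mem s (Subgroup.mem_zpowers s) h) N hN

end Pool.Agent.Results.MP_de2f37_co.EvenRegularGroups
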