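import Pool.Agent.Lib.MP_de2f37_co.Inv
import Pool.Agent.Lib.MP_de2f37_co.Rank

/-!
# Steiner systems `S(2, k, k(2k - 1))` with `k = 3 mod 4`: involutions and resolutions

The only definition used in the statement is `Steiner` (`Pool.Agent.Lib.MP_de2f37_co.Reg`): `Steiner k blocks`
says that all members of the finite set `blocks` of finite subsets of `V` have `k` elements and that any two
different points are in exactly one of them.
-/

namespace Pool.Agent.Results.MP_de2f37_co.KThreeModFour

open Pool.Agent.Lib.MPde2f37

/-- Let `k = 3 mod 4` and let `blocks` be the blocks of a Steiner system `S(2, k, k(2k - 1))` on `V`.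
(1) Every automorphism `σ` with `σ² = 1` fixes at least three points.
(2) If the design is resolvable (the blocks have colours such that for every colour each point is in exactly one
block of this colour), then some nonempty set of points meets every block in an even number of points. -/
theorem result (k : ℕ) (hk : k % 4 = 3) (V : Type) [Fintype V] [DecidableEq V]
    (hV : Fintype.card V = k * (2 * k - 1)) (blocks : Finset (Finset V)) (hD : Steiner k blocks) :
    (∀ σ : Equiv.Perm V, σ * σ = 1 → (∀ B ∈ blocks, B.image σ ∈ blocks) →
      3 ≤ (Finset.univ.filter fun x => σ x = x).card) ∧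
    (∀ (ι : Type) [Fintype ι] (f : Finset V → ι),
      (∀ (c : ι) (x : V), ∃! B, B ∈ blocks ∧ f B = c ∧ x ∈ B) →
      ∃ S : Finset V, S.Nonempty ∧ ∀ B ∈ blocks, Even (B ∩ S).card) := by
  classical
  refine ⟨fun σ hσ haut => ?_, fun ι _ f hres => Rank.rank_lt hk hV hD hres⟩
  exact Inv.three_le hk hV hD (fun x => by
    have h := Equiv.congr_fun hσ x
    simpa using h) haut

end Pool.Agent.Results.MP_de2f37_co.KThreeModFour
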